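import Pool.Agent.helper22.SC.WXU

/-!
# The limit of a family of curves when points collide
-/

set_option autoImplicit false

open MvPolynomial Pool.Agent.helper5.NBS Pool.Agent.helper73.Nag Pool.Agent.helper22.SC

namespace Pool.Agent.helper15.Coll

/-- families of polynomials depending polynomially on one parameter -/
abbrev RA := MvPolynomial (Fin 2) (Polynomial ℂ)

/-- specialisation of the parameter -/
noncomputable def sp (t : ℂ) : RA →+* R2 := MvPolynomial.map (Polynomial.evalRingHom t)

lemma coeff_sp (t : ℂ) (f : RA) (n : Fin 2 →₀ ℕ) : coeff n (sp t f) = (coeff n f).eval t := by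
  rw [sp, coeff_map]; rfl

/-- translation by a point depending on the parameter -/
noncomputable def trA (c : Fin 2 → Polynomial ℂ) : RA →ₐ[Polynomial ℂ] RA :=
  aeval fun l => X l + C (c l)

/-- scaling by the parameter -/
noncomputable def scA : RA →ₐ[Polynomial ℂ] RA := aeval fun l => C Polynomial.X * X l

lemma sp_trA (t : ℂ) (c : Fin 2 → Polynomial ℂ) (f : RA) :
    sp t (trA c f) = trans (fun l => (c l).eval t) (sp t f) := by
  have : (sp t).comp (trA c : RA →+* RA) =
      ((trans fun l => (c l).eval t : R2 →+* R2)).comp (sp t) := by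
    apply MvPolynomial.ringHom_ext
    · intro a
      simp [sp, trA, trans_C]
    · intro l
      simp [sp, trA, trans_X]
  exact congrArg (fun g : RA →+* R2 => g f) this

lemma trA_scA (c b : Fin 2 → Polynomial ℂ) (f : RA) :
    trA c (scA (trA b f)) = scA (trA (fun l => b l + Polynomial.X * c l) f) := by
  have : ((trA c).comp scA).comp (trA b) = scA.comp (trA (fun l => b l + Polynomial.X * c l)) := by
    apply MvPolynomial.algHom_ext
    intro l
    simp only [AlgHom.comp_apply, trA, scA, aeval_X, map_add, map_mul, aeval_C,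
      MvPolynomial.algebraMap_eq]
    ring
  exact congrArg (fun g : RA →ₐ[Polynomial ℂ] RA => g f) this

lemma scA_monomial (k : Fin 2 →₀ ℕ) (c : Polynomial ℂ) :
    scA (monomial k c) = monomial k (Polynomial.X ^ k.degree * c) := by
  rw [scA, aeval_monomial, Finsupp.prod_fintype _ _ (by intro i; simp), monomial_eq,
    Finsupp.prod_fintype _ _ (by intro i; simp), Finsupp.degree_eq_sum, MvPolynomial.algebraMap_eq]
  simp only [Fin.prod_univ_two, Fin.sum_univ_two, mul_pow, C_mul, C_pow, pow_add]
  ring

lemma coeff_scA (f : RA) (n : Fin 2 →₀ ℕ) :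
    coeff n (scA f) = Polynomial.X ^ n.degree * coeff n f := by
  classical
  conv_lhs => rw [f.as_sum]
  conv_rhs => rw [f.as_sum]
  rw [map_sum, coeff_sum, coeff_sum, Finset.mul_sum]
  apply Finset.sum_congr rfl
  intro k _
  rw [scA_monomial, coeff_monomial, coeff_monomial]
  split_ifs with h
  · rw [← h]
  · rw [mul_zero]

lemma extract_aux (D : ℕ) : ∀ (f : RA) (n : Fin 2 →₀ ℕ), coeff n f ≠ 0 →
    (coeff n f).natDegree ≤ D → ∃ (ν : ℕ) (f' : RA), f = C (Polynomial.X ^ ν) * f' ∧ sp 0 f' ≠ 0 := by
  induction D with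
  | zero =>
    intro f n hn hD
    refine ⟨0, f, by simp, fun h0 => hn ?_⟩
    have h1 := coeff_sp 0 f n
    rw [h0, coeff_zero] at h1
    rw [Polynomial.eq_C_of_natDegree_le_zero hD] at h1 ⊢
    rw [Polynomial.eval_C] at h1
    rw [← h1, map_zero]
  | succ D ih =>
    intro f n hn hD
    by_cases h0 : sp 0 f = 0
    · have h1 : C Polynomial.X ∣ f := by
        rw [C_dvd_iff_dvd_coeff]
        intro i
        rw [Polynomial.X_dvd_iff, Polynomial.coeff_zero_eq_eval_zero, ← coeff_sp, h0, coeff_zero]
      obtain ⟨f1, rfl⟩ := h1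
      rw [coeff_C_mul] at hn hD
      have hn1 : coeff n f1 ≠ 0 := right_ne_zero_of_mul hn
      rw [Polynomial.natDegree_X_mul hn1] at hD
      obtain ⟨ν, f', hf, hf'⟩ := ih f1 n hn1 (by omega)
      refine ⟨ν + 1, f', ?_, hf'⟩
      rw [hf, ← mul_assoc, ← C_mul, pow_succ']
    · exact ⟨0, f, by simp, h0⟩

lemma extract {f : RA} (hf : f ≠ 0) :
    ∃ (ν : ℕ) (f' : RA), f = C (Polynomial.X ^ ν) * f' ∧ sp 0 f' ≠ 0 := by
  obtain ⟨n, hn⟩ := MvPolynomial.ne_zero_iff.mp hf
  exact extract_aux _ f n hn le_rfl

/-- the substitution `p_i = q_{π i} + ε u_i` -/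
noncomputable def col {h h' : ℕ} (π : Fin h → Fin h') (u : Fin h → Fin 2 → ℂ) :
    PtRing h →+* Polynomial (PtRing h') :=
  eval₂Hom (Polynomial.C.comp C) fun x =>
    Polynomial.C (X (π x.1, x.2)) + Polynomial.X * Polynomial.C (C (u x.1 x.2))

lemma col_eval {h h' : ℕ} (π : Fin h → Fin h') (u : Fin h → Fin 2 → ℂ)
    (q : Fin h' → Fin 2 → ℂ) (t : ℂ) (w : PtRing h) :
    ((col π u w).map (evP q)).eval t = evP (fun i l => q (π i) l + t * u i l) w := by
  have : ((Polynomial.evalRingHom t).comp (Polynomial.mapRingHom (evP q))).comp (col π u) =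
      evP (fun i l => q (π i) l + t * u i l) := by
    apply MvPolynomial.ringHom_ext
    · intro a
      simp [col, evP]
    · intro x
      simp [col, evP]
      ring
  exact congrArg (fun g : PtRing h →+* ℂ => g w) this

lemma spec {N : ℕ} {d h : ℕ} {m : Fin h → ℕ} (hN : 0 < N) {v : ExN N d → PtRing h}
    (hv : IsFamN m v) {h' : ℕ} (π : Fin h → Fin h') (u : Fin h → Fin 2 → ℂ)
    (q : Fin h' → Fin 2 → ℂ) (hne : ∃ k, (col π u (v k)).map (evP q) ≠ 0) :
      ∃ F : R2, F ≠ 0 ∧ wdeg N F ≤ d ∧ ∀ k : Fin h', ∃ g : R2, g ≠ 0 ∧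
        g.totalDegree ≤ mult (q k) F ∧ ∀ i, π i = k → g ∈ ptIdeal (u i) ^ m i := by
  classical
  set a : ExN N d → Polynomial ℂ := fun k => (col π u (v k)).map (evP q) with ha
  set Φ : RA := ∑ k : ExN N d, monomial k.1 (a k) with hΦ
  have hcoef : ∀ n, coeff n Φ = if hn : n ∈ ExN N d then a ⟨n, hn⟩ else 0 := by
    intro n
    rw [hΦ, coeff_sum]
    simp only [coeff_monomial]
    split_ifs with hn
    · rw [Finset.sum_eq_single (⟨n, hn⟩ : ExN N d)]
      · simp
      · intro l _ hl
        rw [if_neg]
        intro h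
        exact hl (Subtype.ext h)
      · intro h
        exact absurd (Finset.mem_univ _) h
    · apply Finset.sum_eq_zero
      intro k _
      rw [if_neg]
      intro h
      exact hn (h ▸ k.2)
  have hΦ0 : Φ ≠ 0 := by
    obtain ⟨k, hk⟩ := hne
    intro h0
    have h1 := hcoef k.1
    rw [h0, coeff_zero, dif_pos k.2] at h1
    exact hk h1.symm
  have hsp : ∀ t, sp t Φ = polyOf (ExN N d) (fun k => evP (fun i l => q (π i) l + t * u i l) (v k)) := by
    intro t
    rw [hΦ, map_sum, polyOf]
    apply Finset.sum_congr rfl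
    intro k _
    rw [sp, map_monomial, ha]
    show monomial k.1 (Polynomial.eval t _) = _
    rw [col_eval]
  obtain ⟨ν, F', hF', hF'0⟩ := extract hΦ0
  refine ⟨sp 0 F', hF'0, ?_, fun k => ?_⟩
  · rw [wdegN_le_iff hN]
    intro n hn
    by_contra hcon
    have h1 := hcoef n
    rw [dif_neg hcon, hF', coeff_C_mul] at h1
    have h2 : coeff n F' = 0 := (mul_eq_zero.mp h1).resolve_left (pow_ne_zero _ Polynomial.X_ne_zero)
    rw [mem_support_iff, coeff_sp, h2] at hn
    simp at hn
  · set G : RA := trA (fun l => Polynomial.C (q k l)) F' with hG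
    set H : RA := scA G with hH
    have hGsp : sp 0 G = trans (q k) (sp 0 F') := by
      rw [hG, sp_trA]
      simp
    have hG0 : sp 0 G ≠ 0 := by
      rw [hGsp]
      intro h
      exact hF'0 ((map_eq_zero_iff _ (trans (q k)).injective).mp h)
    have hH0 : H ≠ 0 := by
      have hGne : G ≠ 0 := fun h => hG0 (by rw [h, map_zero])
      obtain ⟨n, hn⟩ := MvPolynomial.ne_zero_iff.mp hGne
      intro h0
      have h1 := coeff_scA G n
      rw [← hH, h0, coeff_zero] at h1
      exact hn ((mul_eq_zero.mp h1.symm).resolve_left (pow_ne_zero _ Polynomial.X_ne_zero))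
    obtain ⟨μ, H', hH', hH'0⟩ := extract hH0
    have hrel : ∀ n : Fin 2 →₀ ℕ, Polynomial.X ^ μ * coeff n H' =
        Polynomial.X ^ n.degree * coeff n G := by
      intro n
      rw [← coeff_scA, ← hH, hH', coeff_C_mul]
    refine ⟨sp 0 H', hH'0, ?_, ?_⟩
    · apply le_trans (b := μ)
      · rw [MvPolynomial.totalDegree]
        apply Finset.sup_le
        intro n hn
        rw [mem_support_iff, coeff_sp] at hn
        by_contra hcon
        rw [not_le] at hcon
        have hdeg : (n.sum fun _ e => e) = n.degree := rfl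
        rw [hdeg] at hcon
        apply hn
        have h1 := hrel n
        obtain ⟨e, he⟩ : ∃ e, n.degree = μ + (e + 1) := ⟨n.degree - μ - 1, by omega⟩
        rw [he, pow_add, mul_assoc] at h1
        have h2 := mul_left_cancel₀ (pow_ne_zero _ Polynomial.X_ne_zero) h1
        rw [h2, Polynomial.eval_mul]
        simp
      · rw [← mem_pow_iff_le_mult hF'0, mem_ptIdeal_pow]
        intro n hn
        rw [← hGsp, coeff_sp]
        have h1 := hrel n
        obtain ⟨e, he⟩ : ∃ e, μ = n.degree + (e + 1) := ⟨μ - n.degree - 1, by omega⟩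
        rw [he, pow_add, mul_assoc] at h1
        have h2 := mul_left_cancel₀ (pow_ne_zero _ Polynomial.X_ne_zero) h1
        rw [← h2, Polynomial.eval_mul]
        simp
    · intro i hi
      rw [mem_ptIdeal_pow]
      intro n hn
      have h1 : coeff n (trA (fun l => Polynomial.C (u i l)) H') = 0 := by
        have h2 : coeff n (trA (fun l => Polynomial.C (u i l)) H) = 0 := by
          rw [hH, hG, trA_scA, coeff_scA]
          have h3 : coeff n (trA (fun l => Polynomial.C (q k l) + Polynomial.X * Polynomial.C (u i l)) Φ) = 0 := by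
            apply Polynomial.funext
            intro t
            rw [← coeff_sp, sp_trA, hsp, Polynomial.eval_zero]
            have h4 := (hv.lin hN (fun i l => q (π i) l + t * u i l)).2 i
            rw [mem_ptIdeal_pow] at h4
            have h5 := h4 n hn
            have h6 : (fun l => Polynomial.eval t (Polynomial.C (q k l) +
                Polynomial.X * Polynomial.C (u i l))) = fun l => q (π i) l + t * u i l := by
              funext l
              simp [hi]
              ring
            rw [h6]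
            exact h5
          rw [hF', map_mul] at h3
          have h4 : trA (fun l => Polynomial.C (q k l) + Polynomial.X * Polynomial.C (u i l))
              (C (Polynomial.X ^ ν)) = C (Polynomial.X ^ ν) := by
            rw [trA, aeval_C, MvPolynomial.algebraMap_eq]
          rw [h4, coeff_C_mul] at h3
          rw [(mul_eq_zero.mp h3).resolve_left (pow_ne_zero _ Polynomial.X_ne_zero), mul_zero]
        rw [hH', map_mul] at h2
        have h4 : trA (fun l => Polynomial.C (u i l))
              (C (Polynomial.X ^ μ)) = C (Polynomial.X ^ μ) := by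
            rw [trA, aeval_C, MvPolynomial.algebraMap_eq]
        rw [h4, coeff_C_mul] at h2
        exact (mul_eq_zero.mp h2).resolve_left (pow_ne_zero _ Polynomial.X_ne_zero)
      have h2 := sp_trA 0 (fun l => Polynomial.C (u i l)) H'
      simp only [Polynomial.eval_C] at h2
      rw [← h2, coeff_sp, h1, Polynomial.eval_zero]

/-- The limit of a family of curves when points collide. -/
theorem collide_fam {N : ℕ} (hN : 0 < N) {d h h' : ℕ} {m : Fin h → ℕ} {v : ExN N d → PtRing h}
    (hv : IsFamN m v) (π : Fin h → Fin h') (u : Fin h → Fin 2 → ℂ)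
    (hu : ∃ k, evP u (v k) ≠ 0) :
    ∃ Q : PtRing h', Q ≠ 0 ∧ ∀ q : Fin h' → Fin 2 → ℂ, evP q Q ≠ 0 →
      ∃ F : R2, F ≠ 0 ∧ wdeg N F ≤ d ∧ ∀ k : Fin h', ∃ g : R2, g ≠ 0 ∧
        g.totalDegree ≤ mult (q k) F ∧ ∀ i, π i = k → g ∈ ptIdeal (u i) ^ m i := by
  obtain ⟨k, hk⟩ := hu
  have h0 : col π u (v k) ≠ 0 := by
    intro h1
    apply hk
    have h2 := col_eval π u (fun _ _ => 0) 1 (v k)
    rw [h1] at h2
    simp only [Polynomial.map_zero, Polynomial.eval_zero, zero_add, one_mul] at h2
    exact h2.symm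
  refine ⟨(col π u (v k)).leadingCoeff, Polynomial.leadingCoeff_ne_zero.mpr h0, fun q hq => ?_⟩
  apply spec hN hv π u q ⟨k, ?_⟩
  intro h1
  apply hq
  have h2 := congrArg (fun w : Polynomial ℂ => w.coeff (col π u (v k)).natDegree) h1
  simp only [Polynomial.coeff_map, Polynomial.coeff_zero] at h2
  exact h2

end Pool.Agent.helper15.Coll
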